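import Pool.Agent.GT.StmtsD

/-!
# Squad GT, D_SQP: polynomials with rational odd roots
-/

set_option autoImplicit false

open Polynomial

namespace Pool.Agent.GT.D.H65

theorem map_ne {δ : ℚ[X]} (h : δ ≠ 0) : δ.map (algebraMap ℚ ℂ) ≠ 0 :=
  (Polynomial.map_ne_zero_iff (algebraMap ℚ ℂ).injective).mpr h

/-- the multiplicity of a complex number in a product of rational polynomials -/
theorem mult_mul {p q : ℚ[X]} (hp : p ≠ 0) (hq : q ≠ 0) (t : ℂ) :
    ((p * q).map (algebraMap ℚ ℂ)).rootMultiplicity t =
      (p.map (algebraMap ℚ ℂ)).rootMultiplicity t + (q.map (algebraMap ℚ ℂ)).rootMultiplicity t := by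
  rw [Polynomial.map_mul, Polynomial.rootMultiplicity_mul]
  exact mul_ne_zero (map_ne hp) (map_ne hq)

/-- the multiplicity of a root of an irreducible polynomial is one -/
theorem mult_irr {p : ℚ[X]} (hp : Irreducible p) (t : ℂ) (ht : (p.map (algebraMap ℚ ℂ)).IsRoot t) :
    (p.map (algebraMap ℚ ℂ)).rootMultiplicity t = 1 := by
  have h1 : (p.map (algebraMap ℚ ℂ)).rootMultiplicity t ≤ 1 :=
    Polynomial.rootMultiplicity_le_one_of_separable (hp.separable.map) t
  have h2 : 0 < (p.map (algebraMap ℚ ℂ)).rootMultiplicity t :=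
    (Polynomial.rootMultiplicity_pos (map_ne hp.ne_zero)).mpr ht
  omega

theorem d_sqp : SqpStmt := by
  suffices H : ∀ n : ℕ, ∀ δ : ℚ[X], δ.natDegree ≤ n → δ ≠ 0 →
      (∀ t : ℂ, Odd ((δ.map (algebraMap ℚ ℂ)).rootMultiplicity t) → ∃ c : ℚ, t = (c : ℂ)) →
      ∃ (k : ℚ) (s : ℚ[X]) (R : Finset ℚ), k ≠ 0 ∧ s ≠ 0 ∧ δ = C k * s ^ 2 * ∏ c ∈ R, (X - C c) by
    intro δ hδ h
    exact H δ.natDegree δ le_rfl hδ h
  intro n
  induction n using Nat.strong_induction_on with
  | _ n ih =>
    intro δ hn hδ h
    by_cases h0 : δ.natDegree = 0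
    · obtain ⟨k, hk⟩ : ∃ k : ℚ, δ = C k := ⟨_, Polynomial.eq_C_of_natDegree_eq_zero h0⟩
      refine ⟨k, 1, ∅, ?_, one_ne_zero, ?_⟩
      · rintro rfl
        apply hδ
        rw [hk, C_0]
      · rw [hk]
        simp
    · by_cases hr : ∃ c : ℚ, δ.IsRoot c
      · obtain ⟨c, hc⟩ := hr
        obtain ⟨δ', hδ'⟩ := Polynomial.dvd_iff_isRoot.mpr hc
        have hX : (X - C c : ℚ[X]) ≠ 0 := Polynomial.X_sub_C_ne_zero c
        have hδ'0 : δ' ≠ 0 := by
          rintro rfl
          apply hδ
          rw [hδ', mul_zero]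
        have hdeg : δ.natDegree = 1 + δ'.natDegree := by
          rw [hδ', Polynomial.natDegree_mul hX hδ'0, Polynomial.natDegree_X_sub_C]
        have hyp : ∀ t : ℂ, Odd ((δ'.map (algebraMap ℚ ℂ)).rootMultiplicity t) → ∃ c : ℚ, t = (c : ℂ) := by
          intro t ht
          by_cases htc : t = (c : ℂ)
          · exact ⟨c, htc⟩
          · apply h t
            rw [hδ', mult_mul hX hδ'0]
            have h1 : ((X - C c : ℚ[X]).map (algebraMap ℚ ℂ)).rootMultiplicity t = 0 := by
              rw [Polynomial.rootMultiplicity_eq_zero_iff]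
              intro hroot
              exfalso
              apply htc
              have h2 : t - (c : ℂ) = 0 := by
                simpa [Polynomial.IsRoot.def] using hroot
              exact sub_eq_zero.mp h2
            rw [h1, zero_add]
            exact ht
        obtain ⟨k, s, R, hk, hs, he⟩ := ih (n - 1) (by omega) δ' (by omega) hδ'0 hyp
        by_cases hcR : c ∈ R
        · refine ⟨k, s * (X - C c), R.erase c, hk, mul_ne_zero hs hX, ?_⟩
          rw [hδ', he, ← Finset.mul_prod_erase R _ hcR]
          ring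
        · refine ⟨k, s, insert c R, hk, hs, ?_⟩
          rw [hδ', he, Finset.prod_insert hcR]
          ring
      · push Not at hr
        obtain ⟨π, hπ, δ1, hδ1⟩ := Polynomial.exists_irreducible_of_natDegree_ne_zero h0
        have hπ0 : π ≠ 0 := hπ.ne_zero
        have hδ10 : δ1 ≠ 0 := by
          rintro rfl
          apply hδ
          rw [hδ1, mul_zero]
        have hπd : 0 < π.natDegree := hπ.natDegree_pos
        obtain ⟨t, ht⟩ : ∃ t : ℂ, (π.map (algebraMap ℚ ℂ)).IsRoot t := by
          apply IsAlgClosed.exists_root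
          rw [Polynomial.degree_map]
          exact (Polynomial.natDegree_pos_iff_degree_pos.mp hπd).ne'
        have htr : ¬ ∃ c : ℚ, t = (c : ℂ) := by
          rintro ⟨c, rfl⟩
          apply hr c
          rw [hδ1]
          have h1 : π.eval c = 0 := by
            have h2 : (π.map (algebraMap ℚ ℂ)).eval ((c : ℚ) : ℂ) = 0 := ht
            have h3 : ((algebraMap ℚ ℂ) (π.eval c)) = 0 := by
              rw [← Polynomial.eval₂_at_apply, ← Polynomial.eval_map]
              exact h2
            exact (map_eq_zero _).mp h3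
          rw [Polynomial.IsRoot.def, Polynomial.eval_mul, h1, zero_mul]
        have hev : ¬ Odd ((δ.map (algebraMap ℚ ℂ)).rootMultiplicity t) := fun ho => htr (h t ho)
        rw [hδ1, mult_mul hπ0 hδ10, mult_irr hπ t ht] at hev
        have hdv : π ∣ δ1 := by
          by_contra hnd
          have hcop : IsCoprime π δ1 := (hπ.coprime_iff_not_dvd).mpr hnd
          obtain ⟨a, b, hab⟩ := hcop
          have h1 : 0 < (δ1.map (algebraMap ℚ ℂ)).rootMultiplicity t := by
            by_contra h2
            have h3 : (δ1.map (algebraMap ℚ ℂ)).rootMultiplicity t = 0 := by omega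
            rw [h3] at hev
            exact hev ⟨0, rfl⟩
          have h2 : (δ1.map (algebraMap ℚ ℂ)).IsRoot t :=
            (Polynomial.rootMultiplicity_pos (map_ne hδ10)).mp h1
          have h3 := congrArg (fun q : ℚ[X] => (q.map (algebraMap ℚ ℂ)).eval t) hab
          simp only [Polynomial.map_add, Polynomial.map_mul, Polynomial.eval_add, Polynomial.eval_mul,
            Polynomial.map_one, Polynomial.eval_one] at h3
          rw [Polynomial.IsRoot.def] at ht h2
          rw [ht, h2, mul_zero, mul_zero, add_zero] at h3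
          exact zero_ne_one h3
        obtain ⟨δ', hδ'⟩ := hdv
        have hδ'0 : δ' ≠ 0 := by
          rintro rfl
          apply hδ10
          rw [hδ', mul_zero]
        have hdeg : δ.natDegree = π.natDegree + (π.natDegree + δ'.natDegree) := by
          rw [hδ1, Polynomial.natDegree_mul hπ0 hδ10, hδ', Polynomial.natDegree_mul hπ0 hδ'0]
        have hyp : ∀ t : ℂ, Odd ((δ'.map (algebraMap ℚ ℂ)).rootMultiplicity t) → ∃ c : ℚ, t = (c : ℂ) := by
          intro t' ht'
          apply h t'
          rw [hδ1, hδ', mult_mul hπ0 (mul_ne_zero hπ0 hδ'0), mult_mul hπ0 hδ'0]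
          obtain ⟨m, hm⟩ := ht'
          rw [hm]
          exact ⟨(π.map (algebraMap ℚ ℂ)).rootMultiplicity t' + m, by ring⟩
        obtain ⟨k, s, R, hk, hs, he⟩ := ih (n - 2) (by omega) δ' (by omega) hδ'0 hyp
        refine ⟨k, s * π, R, hk, mul_ne_zero hs hπ0, ?_⟩
        rw [hδ1, hδ', he]
        ring

end Pool.Agent.GT.D.H65
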