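import Pool.Agent.GT.StmtsA

/-!
Squad GT, row A_GRL: the theorem of Graham and Rothschild for lines.
-/

namespace Pool.Agent.GT.H65

theorem sp_up_inr {k : ℕ} {ι η : Type} {f : ι → Fin k ⊕ η} {i : ι} {e : η}
    (h : f i = Sum.inr e) (x : η → Fin (k + 1)) : sp (up f) x i = x e := by
  unfold sp up
  rw [h]
  rfl

theorem sp_up_inl {k : ℕ} {ι η : Type} {f : ι → Fin k ⊕ η} {i : ι} {a : Fin k}
    (h : f i = Sum.inl a) (x : η → Fin (k + 1)) : sp (up f) x i = a.castSucc := by
  unfold sp up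
  rw [h]
  rfl

/-- one of the two colours is large -/
theorem exists_color {m : ℕ} (b : Fin (2 * m) → Bool) :
    ∃ β : Bool, m ≤ (Finset.univ.filter fun e => b e = β).card := by
  by_contra h
  push Not at h
  have h1 := h true
  have h2 := h false
  have h3 : (Finset.univ.filter fun e => b e = true).card +
      (Finset.univ.filter fun e => b e = false).card = 2 * m := by
    have h4 := Finset.card_filter_add_card_filter_not (s := (Finset.univ : Finset (Fin (2 * m))))
      (fun e => b e = true)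
    rw [Finset.card_univ, Fintype.card_fin] at h4
    have h5 : (Finset.univ.filter fun e => b e = false) =
        Finset.univ.filter fun e => ¬ b e = true := by
      ext e
      simp
    rw [h5]
    exact h4
  omega

theorem a_grl (gra : GraStmt) (grb : GrbStmt) : GrlStmt := by
  intro k m hk
  classical
  obtain ⟨N, hN⟩ := grb k (2 * m) Bool hk
  obtain ⟨n, hn⟩ := gra k N Bool hk
  refine ⟨n, fun c => ?_⟩
  obtain ⟨f, hf, hfc⟩ := hn c
  obtain ⟨g, hg, hgc⟩ := hN (fun x => c (sp (up f) x)) hfc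
  -- the colour of a place
  obtain ⟨b, hb⟩ : ∃ b : Fin (2 * m) → Bool, ∀ (x : Fin (2 * m) → Fin (k + 1)) (e : Fin (2 * m)),
      MinAt x e → c (sp (up f) (sp (up g) x)) = b e := by
    refine ⟨fun e => c (sp (up f) (sp (up g) fun e' => if e' = e then Fin.last k else
      (⟨0, hk⟩ : Fin k).castSucc)), fun x e hx => hgc x _ e hx ⟨if_pos rfl, fun e' he' => ?_⟩⟩
    change (if e' = e then Fin.last k else (⟨0, hk⟩ : Fin k).castSucc) ≠ Fin.last k
    rw [if_neg he'.ne]
    exact (Fin.castSucc_lt_last _).ne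
  obtain ⟨β, hβ⟩ := exists_color b
  obtain ⟨S, hS, hSc⟩ := Finset.exists_subset_card_eq hβ
  obtain ⟨i, hi⟩ : ∃ i : Fin m ↪o Fin (2 * m), ∀ t, b (i t) = β :=
    ⟨S.orderEmbOfFin hSc, fun t =>
      (Finset.mem_filter.1 (hS (Finset.orderEmbOfFin_mem S hSc t))).2⟩
  obtain ⟨h, h1, h2⟩ : ∃ h : Fin (2 * m) → Fin k ⊕ Fin m, (∀ t, h (i t) = Sum.inr t) ∧
      ∀ j, (∀ t, i t ≠ j) → h j = Sum.inl ⟨0, hk⟩ := by
    refine ⟨fun j => if hj : ∃ t, i t = j then Sum.inr hj.choose else Sum.inl ⟨0, hk⟩,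
      fun t => ?_, fun j hj => ?_⟩
    · have hj : ∃ t', i t' = i t := ⟨t, rfl⟩
      simp only [dif_pos hj]
      rw [i.injective hj.choose_spec]
    · have hj' : ¬ ∃ t, i t = j := fun ⟨t, ht⟩ => hj t ht
      simp only [dif_neg hj']
  refine ⟨cmp (cmp f g) h, (hf.cmp hg).cmp fun e => ⟨i e, h1 e⟩, β, fun x hx => ?_⟩
  obtain ⟨t, ht, hmin⟩ := WellFounded.has_min (wellFounded_lt (α := Fin m))
    {e | x e = Fin.last k} hx
  have hM : MinAt (sp (up h) x) (i t) := by
    refine ⟨?_, fun e' he' => ?_⟩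
    · rw [sp_up_inr (h1 t)]
      exact ht
    · by_cases h3 : ∃ t', i t' = e'
      · obtain ⟨t', rfl⟩ := h3
        rw [sp_up_inr (h1 t')]
        intro h4
        exact hmin t' h4 (i.lt_iff_lt.1 he')
      · rw [sp_up_inl (h2 e' fun t' h4 => h3 ⟨t', h4⟩)]
        exact (Fin.castSucc_lt_last _).ne
  rw [up_cmp, up_cmp, sp_cmp, sp_cmp, hb _ _ hM, hi]

end Pool.Agent.GT.H65
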