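import Pool.Agent.GT.StmtsC

/-!
# Squad GT, C_SYS: the forms of `LF` are a good system
-/

open Finset

namespace Pool.Agent.GT.H65

theorem co_apply {K : ℕ} (q : Fin K × (Fin K → Bool)) (i : Fin K) (e : Bool) :
    co q (i, e) = if q.2 i = e then ((i : ℕ) : ℤ) - ((q.1 : ℕ) : ℤ) else 0 := rfl

theorem good_co (K : ℕ) (S : Finset (Fin K × (Fin K → Bool))) (hK : 3 ≤ K)
    (hS : ∀ q ∈ S, q.2 q.1 = false) :
    Good K (fun (q : ↥S) (v : Fin K × Bool) => co q.1 v) := by
  refine ⟨?_, ?_, ?_⟩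
  · rintro ⟨q, hq⟩ ⟨i, e⟩
    show |co q (i, e)| ≤ K
    rw [co_apply]
    have h1 : ((i : ℕ) : ℤ) < K := by exact_mod_cast i.2
    have h2 : ((q.1 : ℕ) : ℤ) < K := by exact_mod_cast q.1.2
    have h3 : (0 : ℤ) ≤ ((i : ℕ) : ℤ) := by positivity
    have h4 : (0 : ℤ) ≤ ((q.1 : ℕ) : ℤ) := by positivity
    split_ifs
    · rw [abs_le]
      constructor <;> linarith
    · rw [abs_zero]
      positivity
  · rintro ⟨q, hq⟩
    show ∃ i, co q i = 1 ∨ co q i = -1
    by_cases h : (q.1 : ℕ) + 1 < K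
    · refine ⟨(⟨(q.1 : ℕ) + 1, h⟩, q.2 ⟨(q.1 : ℕ) + 1, h⟩), Or.inl ?_⟩
      rw [co_apply, if_pos rfl]
      push_cast
      ring
    · have h1 : 1 ≤ (q.1 : ℕ) := by omega
      have h2 : (q.1 : ℕ) - 1 < K := by omega
      refine ⟨(⟨(q.1 : ℕ) - 1, h2⟩, q.2 ⟨(q.1 : ℕ) - 1, h2⟩), Or.inr ?_⟩
      rw [co_apply, if_pos rfl]
      push_cast [Nat.cast_sub h1]
      ring
  · rintro ⟨q, hq⟩ ⟨q', hq'⟩ hne
    show ∃ i, co q i ≠ 0 ∧ co q' i = 0
    by_cases hj : q.1 = q'.1
    · have hw : q.2 ≠ q'.2 := by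
        intro hw
        apply hne
        apply Subtype.ext
        exact Prod.ext hj hw
      obtain ⟨i, hi⟩ : ∃ i, q.2 i ≠ q'.2 i := Function.ne_iff.mp hw
      have hij : i ≠ q.1 := by
        intro h
        apply hi
        rw [h, hS q hq, hj, hS q' hq']
      refine ⟨(i, q.2 i), ?_, ?_⟩
      · rw [co_apply, if_pos rfl]
        intro h0
        apply hij
        apply Fin.ext
        have : ((i : ℕ) : ℤ) = ((q.1 : ℕ) : ℤ) := by linarith
        exact_mod_cast this
      · rw [co_apply, if_neg (fun h => hi h.symm)]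
    · refine ⟨(q'.1, q.2 q'.1), ?_, ?_⟩
      · rw [co_apply, if_pos rfl]
        intro h0
        apply hj
        apply Fin.ext
        have : ((q'.1 : ℕ) : ℤ) = ((q.1 : ℕ) : ℤ) := by linarith
        exact_mod_cast this.symm
      · rw [co_apply]
        split_ifs
        · ring
        · rfl

/-- the family `z (i, false) = x i`, `z (i, true) = y i` -/
def zz {K : ℕ} {X : Type} (p : (Fin K → X) × (Fin K → X)) (v : Fin K × Bool) : X :=
  if v.2 then p.2 v.1 else p.1 v.1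

/-- pairs of families are families over `Fin K × Bool` -/
def zzEquiv (K : ℕ) (X : Type) : (Fin K → X) × (Fin K → X) ≃ (Fin K × Bool → X) where
  toFun := zz
  invFun z := (fun i => z (i, false), fun i => z (i, true))
  left_inv p := by
    apply Prod.ext
    · funext i
      simp [zz]
    · funext i
      simp [zz]
  right_inv z := by
    funext v
    obtain ⟨i, e⟩ := v
    cases e <;> simp [zz]

theorem ev_zz {K N : ℕ} (q : Fin K × (Fin K → Bool)) (x y : Fin K → ZMod N) :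
    ∑ v : Fin K × Bool, ((co q v : ℤ) : ZMod N) * zz (x, y) v = psi q.1 (mix q.2 x y) := by
  rw [Fintype.sum_prod_type]
  unfold psi
  refine Finset.sum_congr rfl fun i _ => ?_
  rw [Fintype.sum_bool, co_apply, co_apply]
  unfold mix zz
  cases h : q.2 i <;> simp

theorem c_sys : SysStmt := by
  intro K N _ S ν hK hS
  refine ⟨good_co K S hK hS, ?_⟩
  rw [← Fintype.sum_prod_type']
  refine Fintype.sum_equiv (zzEquiv K (ZMod N)) _ _ ?_
  rintro ⟨x, y⟩
  rw [← Finset.prod_coe_sort S (fun q => ν (psi q.1 (mix q.2 x y)))]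
  refine Finset.prod_congr rfl fun q _ => ?_
  have h := ev_zz (N := N) q.1 x y
  show ν (psi q.1.1 (mix q.1.2 x y)) = ν (∑ v : Fin K × Bool, ((co q.1 v : ℤ) : ZMod N) * zz (x, y) v)
  rw [h]

end Pool.Agent.GT.H65
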